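import Pool.Agent.Helper83.CO.St

/-!
# Project CO (MP_140278_ag), module PHI: coefficients of `Phi`
-/

set_option autoImplicit false

open scoped BigOperators
open MvPolynomial

namespace Pool.Agent.Helper75.CO

open Pool.Agent.Helper53.CX Pool.Agent.Helper83.CO

theorem phi_X0 (k : ℕ) : Phi k (X 0) = C Polynomial.X := by
  unfold Phi
  rw [aeval_X, Fin.cons_zero]

theorem phi_Xs (k : ℕ) (j : Fin k) : Phi k (X j.succ) = X j := by
  unfold Phi
  rw [aeval_X, Fin.cons_succ]

theorem phi_C (k : ℕ) (c : ℂ) : Phi k (C c) = C (Polynomial.C c) := by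
  unfold Phi
  rw [algHom_C]
  rfl

theorem phi_mon (k : ℕ) (m : Fin (k + 1) →₀ ℕ) (c : ℂ) :
    Phi k (monomial m c) = monomial (Finsupp.tail m) (Polynomial.monomial (m 0) c) := by
  rw [monomial_eq, map_mul, phi_C, Finsupp.prod_fintype _ _ (fun i => by simp), map_prod,
    Fin.prod_univ_succ]
  simp only [map_pow, phi_X0, phi_Xs]
  rw [monomial_eq (s := Finsupp.tail m), Finsupp.prod_fintype _ _ (fun i => by simp), ← mul_assoc, ← C_pow, ← C_mul,
    Polynomial.C_mul_X_pow_eq_monomial]
  rfl

theorem phi_coeff (k : ℕ) (f : Pn (k + 1)) (m : Fin k →₀ ℕ) (i : ℕ) :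
    ((Phi k f).coeff m).coeff i = f.coeff (Finsupp.cons i m) := by
  classical
  induction f using MvPolynomial.induction_on' with
  | monomial a b =>
    rw [phi_mon, coeff_monomial, coeff_monomial]
    by_cases h : a = Finsupp.cons i m
    · subst h
      rw [if_pos rfl, Finsupp.tail_cons, if_pos rfl, Finsupp.cons_zero, Polynomial.coeff_monomial, if_pos rfl]
    · rw [if_neg h]
      by_cases h2 : Finsupp.tail a = m
      · rw [if_pos h2, Polynomial.coeff_monomial, if_neg]
        intro h3
        apply h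
        rw [← h2, ← h3, Finsupp.cons_tail]
      · rw [if_neg h2, Polynomial.coeff_zero]
  | add p q ih1 ih2 =>
    rw [map_add, coeff_add, Polynomial.coeff_add, coeff_add, ih1, ih2]

theorem hPHI : StPHI := by
  classical
  intro k
  refine ⟨phi_coeff k, ?_, ?_, ?_, phi_Xs k⟩
  · intro f hf
    have h1 : Phi k f ≠ 0 := by
      intro h
      apply hf
      ext m
      have h2 := phi_coeff k f (Finsupp.tail m) (m 0)
      rw [h, Finsupp.cons_tail] at h2
      rw [← h2]
      simp
    exact ⟨h1, support_nonempty.2 h1⟩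
  · intro a i m
    unfold wt
    rw [Fin.sum_univ_succ]
    simp
  · intro p
    rw [map_sub, phi_X0, phi_C, ← C_sub]

end Pool.Agent.Helper75.CO
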